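import Mathlib
import Pool.Agent.TH249.Fin
import Pool.Agent.TH249.Stmt
import Pool.Agent.Y25.PiK1

/-!
For every positive multiple `n` of four there are an AF algebra `A` and an automorphism `α` of order
`n` of the scaled ordered group `K_0(A)` such that no *-automorphism `φ` of `A` with `K_0(φ) = α`
satisfies `φ^n = id`.

Let `A₁` with `α₁ = K_0(Φ)` be the example of order four. On the `m`-th power of `A₁` consider the
automorphism `b ↦ (Φ b_{m-1}, b_0, …, b_{m-2})`; its `m`-th power is `Φ` in each coordinate, so the
induced automorphism has order `4 m`. If `φ` is a lift with `φ^{4m} = id`, then `φ^m` fixes the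
central projection of the first coordinate, because a projection of `A₁` of class `0` is `0`; it
therefore induces on the first coordinate an automorphism of `A₁` which is a lift of `α₁` and whose
fourth power is the identity, a contradiction.
-/

set_option autoImplicit false

noncomputable section

namespace Pool.Agent.Results.MP_9b0829_an.EveryMultipleOfFour

open Pool.Agent.TH249 Pool.Agent.H188R3 Pool.Agent.Y25.PiK0

theorem result (n : ℕ) (hn : 0 < n) (h4n : 4 ∣ n) :
    ∃ (A : Type) (_ : CStarAlgebra A), IsAF A ∧ ∃ α : K0Aut A,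
      IsScaled α ∧ HasOrder (K0Aut.fn α) n ∧
        ∀ φ : StarAut A, Induces φ α → (StarAut.fn φ)^[n] ≠ id := by
  obtain ⟨D⟩ := exists_data
  obtain ⟨E, _, j, h⟩ := exists_lim D.io D.io_inj
  obtain ⟨q, hq⟩ := exists_q D h
  obtain ⟨θ, hθ, -⟩ := exists_theta D h
  obtain ⟨f, hf⟩ := exists_Lam D h
  have hqθ : ∀ x, q (θ x) = q x := q_theta D h hq hθ
  have hfθ : ∀ x, f (θ x) = -f x := Lam_theta D h hf hθ
  have h4 := al_four h hq hθ hqθ
  have h2 := al_two_ne h hθ hqθ hf hfθ
  have hzero : ∀ (p : TA q) (hp : IsStarProjection p),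
      K0.cls (Prj.of p hp) = K0.cls (Prj.of (0 : TA q) (IsStarProjection.zero (TA q))) → p = 0 := by
    intro p hp hp0
    refine AA_ext q fun i => ?_
    have h1 := congrArg (K0.map (pr q i)) hp0
    rw [K0.map_cls, K0.map_cls, Prj.map_of, Prj.map_of] at h1
    have h3 := cls_to_MvN D h (hp.map (pr q i)) ((IsStarProjection.zero (TA q)).map (pr q i)) h1
    rw [map_zero] at h3
    rw [map_zero]
    exact h3.zero
  have hnt : (1 : TA q) ≠ 0 := by
    intro h10
    have hsub : ∀ a b : TA q, a = b := by
      intro a b
      rw [← mul_one a, ← mul_one b, h10, mul_zero, mul_zero]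
    apply h2
    have h5 : ∀ x, K0.congr (Phi θ hqθ) x = x := by
      intro x
      rw [K0.congr_apply]
      have h6 : (Phi θ hqθ : TA q →⋆ₐ[ℂ] TA q) = StarAlgHom.id ℂ (TA q) := by
        ext a
        exact hsub _ _
      rw [h6]
      exact K0.map_id x
    intro x
    rw [h5, h5]
  have hobs : Obs (TA q) (Phi θ hqθ) :=
    { four := fun m P hP => by
        have h1 := eqv_Ph4 h hq hθ hqθ P hP
        exact h1
      ne := by
        intro k hk1 hk2 hk
        have hk' : ∀ y, (⇑(K0.congr (Phi θ hqθ)))^[k] y = y := by
          intro y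
          have h1 := hk y
          rw [K0_pw] at h1
          exact h1
        apply h2
        intro x
        interval_cases k
        · have h1 : ∀ y, K0.congr (Phi θ hqθ) y = y := hk'
          rw [h1, h1]
        · exact hk' x
        · have h1 : ∀ y, K0.congr (Phi θ hqθ) (K0.congr (Phi θ hqθ)
              (K0.congr (Phi θ hqθ) y)) = y := hk'
          have h5 : ∀ y, K0.congr (Phi θ hqθ) y = y := by
            intro y
            have h6 := h4 y
            rwa [h1] at h6
          rw [h5, h5]
      nolift := fun φ hφ hφ4 => no_lift h hq hθ hqθ hf hfθ φ hφ hφ4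
      zero := hzero
      nontriv := hnt }
  obtain ⟨m, rfl⟩ := h4n
  have hm : 0 < m := by omega
  rw [Nat.mul_comm]
  exact ⟨Fin m → TA q, inferInstance, isAF_pi m (isAF_A D h hq), K0.congr (cycE m (Phi θ hqθ)),
    isScaled_congr _, order_cyc hobs hm, fun φ hφ => nolift_cyc hobs hm φ hφ⟩

end Pool.Agent.Results.MP_9b0829_an.EveryMultipleOfFour
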